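import Pool.Agent.P8H81.LP.Stm2

/-! # Project LPB (helper81), package DBL: upper bound of the double sums -/

set_option autoImplicit false

open Finset hiding box

namespace Pool.Agent.P8H75.LPB

open Pool.Agent.P8H81.LP

lemma mem_box {R : ℕ} {y : Fin 2 → ℤ} : y ∈ box R ↔ ∀ i, -(R : ℤ) ≤ y i ∧ y i ≤ R := by
  unfold Pool.Agent.P8H81.LP.box
  rw [Fintype.mem_piFinset]
  simp only [Finset.mem_Icc]

lemma card_box (R : ℕ) : (box R).card = (2 * R + 1) ^ 2 := by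
  unfold Pool.Agent.P8H81.LP.box
  rw [Fintype.card_piFinset, Finset.prod_const, Finset.card_univ, Fintype.card_fin, Int.card_Icc]
  congr 1
  omega

lemma inner (hc : (Fin 2 → ℤ) → ℝ) (h0 : ∀ x, 0 ≤ hc x) (R : ℕ) (y : Fin 2 → ℤ) (hy : y ∈ box R) :
    ∑ y' ∈ box R, hc (y - y') ≤ ∑ z ∈ box (2 * R), hc z := by
  classical
  have hinj : Set.InjOn (fun y' : Fin 2 → ℤ => y - y') (box R : Set (Fin 2 → ℤ)) := by
    intro u _ v _ h
    exact sub_right_injective h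
  rw [← Finset.sum_image (f := hc) hinj]
  refine Finset.sum_le_sum_of_subset_of_nonneg ?_ fun z _ _ => h0 z
  intro z hz
  obtain ⟨y', hy', rfl⟩ := Finset.mem_image.1 hz
  rw [mem_box] at hy hy' ⊢
  intro i
  have h1 := hy i
  have h2 := hy' i
  rw [Pi.sub_apply]
  push_cast
  constructor <;> omega

/-- **DBL** -/
theorem dbl : S_DBL := by
  intro hT a ha hc h0 hlim
  obtain ⟨C, hC, -, hC2⟩ := hT a ha hc h0 hlim
  refine ⟨9 * C * 2 ^ (a + 1), by positivity, fun R hR => ?_⟩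
  have hR1 : (1 : ℝ) ≤ R := by exact_mod_cast hR
  have h1 := (hC2 (2 * R) (by omega)).1
  have hlog0 : 0 ≤ Real.log (2 + R) := Real.log_nonneg (by linarith)
  have hlog : Real.log (2 + ((2 * R : ℕ) : ℝ)) ≤ 2 * Real.log (2 + R) := by
    have e : 2 * Real.log (2 + R) = Real.log ((2 + R) ^ 2) := by
      rw [Real.log_pow]
      norm_num
    rw [e]
    apply Real.log_le_log (by positivity)
    push_cast
    nlinarith
  have hlog' : 0 ≤ Real.log (2 + ((2 * R : ℕ) : ℝ)) := by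
    apply Real.log_nonneg
    push_cast
    linarith
  have h2 : (Real.log (2 + ((2 * R : ℕ) : ℝ))) ^ (a + 1) ≤
      2 ^ (a + 1) * (Real.log (2 + R)) ^ (a + 1) := by
    rw [← Real.mul_rpow (by norm_num) hlog0]
    exact Real.rpow_le_rpow hlog' hlog (by linarith)
  have h3 : Pool.Agent.P8H81.LP.dbl hc R ≤ ((box R).card : ℝ) * ∑ z ∈ box (2 * R), hc z := by
    unfold Pool.Agent.P8H81.LP.dbl
    refine (Finset.sum_le_card_nsmul _ _ _ fun y hy => inner hc h0 R y hy).trans (le_of_eq ?_)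
    rw [nsmul_eq_mul]
  have h4 : ((box R).card : ℝ) ≤ 9 * (R : ℝ) ^ 2 := by
    rw [card_box]
    push_cast
    nlinarith
  have h5 : (0 : ℝ) ≤ (Real.log (2 + R)) ^ (a + 1) := Real.rpow_nonneg hlog0 _
  have h6 : ∑ z ∈ box (2 * R), hc z ≤ C * (2 ^ (a + 1) * (Real.log (2 + R)) ^ (a + 1)) :=
    h1.trans (mul_le_mul_of_nonneg_left h2 hC.le)
  calc Pool.Agent.P8H81.LP.dbl hc R ≤ ((box R).card : ℝ) * ∑ z ∈ box (2 * R), hc z := h3
    _ ≤ (9 * (R : ℝ) ^ 2) * (C * (2 ^ (a + 1) * (Real.log (2 + R)) ^ (a + 1))) :=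
        mul_le_mul h4 h6 (Finset.sum_nonneg fun z _ => h0 z) (by positivity)
    _ = 9 * C * 2 ^ (a + 1) * (R : ℝ) ^ 2 * (Real.log (2 + R)) ^ (a + 1) := by ring

end Pool.Agent.P8H75.LPB
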